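import Pool.Agent.W897.GA.Defs

/-! The set of points of a substitution has the extension property (adapted from
H557R3/GLPExact). -/

set_option autoImplicit false

namespace Pool.Agent.W352.GLPA

open Pool.Agent.H557R3.GLP Pool.Agent.H557R3.GLP.Fm Pool.Agent.W897.GA

variable {α β : Type}

section EP

variable {φ : Fm α} {σ : α → Fm β}

theorem exact_consistent' {y : Set (Fm α)} (hT : ∀ ψ : Fm α, Der ∅ (ψ.subst σ) → box 0 ψ ∈ y)
    (hy : IsMCS y) (N : ℕ) {c : Fm α}
    (hc : dia N c ∈ y) : ¬ Der ∅ ((neg c).subst σ) := by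
  intro h
  have h1 := hT _ h
  rw [mem_dia hy] at hc
  exact hc (box_le hy (Nat.zero_le N) h1)

/-- The extension property of a point which contains `[0]` of all unified formulas. -/
theorem ext_prop [Countable α] (hφ : Der ∅ (φ.subst σ))
    {y : Set (Fm α)} (hy : IsMCS y) (hT : ∀ ψ : Fm α, Der ∅ (ψ.subst σ) → box 0 ψ ∈ y) :
    ∃ a : α → Prop, ev a (fun m χ => box m χ ∈ y) φ := by
  obtain ⟨M, hM⟩ := exists_bd φ
  by_cases hN : ∃ N, N ≤ M ∧ box N (bot : Fm α) ∉ y
  swap
  · -- no successors at all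
    push Not at hN
    refine ep_of_family (ι := Empty) hφ 0 M (fun i => i.elim) (fun i => i.elim)
      (fun m _ i => i.elim) (fun m _ i => i.elim) hM ?_
    intro m hm χ
    refine iff_of_true ⟨fun _ i => i.elim, fun _ i => i.elim⟩ ?_
    refine box_mono hy m ?_ (hN m hm)
    rw [der_imp_iff]
    intro u hu h
    exact absurd h hu.nbot
  -- the largest such N
  obtain ⟨N, ⟨hNM, hNb⟩, hNmax⟩ : ∃ N, (N ≤ M ∧ box N (bot : Fm α) ∉ y) ∧
      ∀ m, N < m → m ≤ M → box m (bot : Fm α) ∈ y := by
    classical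
    refine ⟨Nat.findGreatest (fun N => box N (bot : Fm α) ∉ y) M, ⟨Nat.findGreatest_le M, ?_⟩, ?_⟩
    · obtain ⟨N, h1, h2⟩ := hN
      exact Nat.findGreatest_spec (P := fun N => box N (bot : Fm α) ∉ y) h1 h2
    · intro m h1 h2
      by_contra h3
      exact Nat.findGreatest_is_greatest h1 h2 h3
  -- the theory of the N-successors
  have hDtop : box N (top : Fm α) ∈ y := by
    refine box_nec hy N ?_
    rw [der_iff]
    intro u hu
    exact mem_top hu
  -- enumeration of the refuted formulas
  obtain ⟨g, hg⟩ : ∃ g : ℕ → {χ : Fm α // box N χ ∉ y}, Function.Surjective g := by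
    have : Nonempty {χ : Fm α // box N χ ∉ y} := ⟨⟨bot, hNb⟩⟩
    exact exists_surjective_nat _
  set χ : ℕ → Fm α := fun i => (g (Nat.unpair i).1).1 with hχdef
  have hχ : ∀ i, box N (χ i) ∉ y := fun i => (g (Nat.unpair i).1).2
  -- directedness of box set
  have hDand : ∀ D D', box N D ∈ y → box N D' ∈ y → box N (Fm.and D D') ∈ y := by
    intro D D' h1 h2
    have h3 : Der ∅ (imp D (imp D' (Fm.and D D'))) := by
      rw [der_imp_iff]
      intro u hu h4
      rw [mem_imp hu, mem_and hu]
      exact fun h5 => ⟨h4, h5⟩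
    exact box_mp hy N (box_mono hy N h3 h1) h2
  have hand1 : ∀ D D' : Fm α, Der ∅ (imp (Fm.and D D') D) := by
    intro D D'
    rw [der_imp_iff]
    intro u hu h
    exact ((mem_and hu _ _).1 h).1
  have hand2 : ∀ D D' : Fm α, Der ∅ (imp (Fm.and D D') D') := by
    intro D D'
    rw [der_imp_iff]
    intro u hu h
    exact ((mem_and hu _ _).1 h).2
  rcases Nat.eq_zero_or_pos N with hN0 | hNpos
  · -- N = 0
    subst hN0
    have key : ∀ i : ℕ, ∃ v : Set (Fm β), IsMCS v ∧
        (∀ D, box 0 D ∈ y → D.subst σ ∈ v) ∧ (χ i).subst σ ∉ v := by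
      intro i
      obtain ⟨v, hv, -, h2⟩ := lindenbaum_directed (isTh_thm (α := β))
        {d | ∃ D, box 0 D ∈ y ∧ d = (Fm.and D (neg (χ i))).subst σ}
        ⟨_, top, hDtop, rfl⟩
        (by
          rintro d ⟨D, hD, rfl⟩ d' ⟨D', hD', rfl⟩
          refine ⟨_, ⟨Fm.and D D', hDand _ _ hD hD', rfl⟩, ?_, ?_⟩
          · have : Der ∅ (imp (Fm.and (Fm.and D D') (neg (χ i))) (Fm.and D (neg (χ i)))) := by
              rw [der_imp_iff]
              intro u hu
              simp only [mem_and hu]
              tauto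
            exact this.subst' σ
          · have : Der ∅ (imp (Fm.and (Fm.and D D') (neg (χ i))) (Fm.and D' (neg (χ i)))) := by
              rw [der_imp_iff]
              intro u hu
              simp only [mem_and hu]
              tauto
            exact this.subst' σ)
        (by
          rintro d ⟨D, hD, rfl⟩ h
          refine exact_consistent' hT hy 0 (c := Fm.and D (neg (χ i))) ?_ h
          rw [mem_dia hy]
          intro h2
          apply hχ i
          refine box_mp hy 0 (box_mono hy 0 ?_ h2) hD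
          rw [der_imp_iff]
          intro u hu
          rw [mem_neg hu, mem_and hu, mem_neg hu, mem_imp hu]
          tauto)
      refine ⟨v, hv, ?_, ?_⟩
      · intro D hD
        have := h2 ⟨D, hD, rfl⟩
        rw [subst_and, mem_and hv] at this
        exact this.1
      · have := h2 ⟨top, hDtop, rfl⟩
        rw [subst_and, mem_and hv, subst_neg, mem_neg hv] at this
        exact this.2
    choose v hv h1 h2 using key
    refine ep_of_family (ι := ℕ) hφ 0 M v hv (fun m hm => absurd hm (Nat.not_lt_zero m))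
      (fun m hm => absurd hm (Nat.not_lt_zero m)) hM ?_
    intro m hm ψ
    rcases Nat.eq_zero_or_pos m with hm0 | hmpos
    · subst hm0
      constructor
      · rintro ⟨-, h3⟩
        by_contra h4
        obtain ⟨j, hj⟩ := hg ⟨ψ, h4⟩
        have h5 := h2 (Nat.pair j 0)
        rw [hχdef] at h5
        simp only [Nat.unpair_pair, hj] at h5
        exact h5 (h3 rfl _).1
      · intro h3
        refine ⟨fun h => absurd h (Nat.lt_irrefl 0), fun _ i => ⟨h1 i _ h3, ?_⟩⟩
        exact h1 i _ (box_four hy 0 h3)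
    · refine iff_of_true ⟨fun h => absurd h (Nat.not_lt_zero m), fun h => absurd h (by omega)⟩ ?_
      refine box_mono hy m ?_ (hNmax m hmpos hm)
      rw [der_imp_iff]
      intro u hu h
      exact absurd h hu.nbot
  · -- N = K + 1
    obtain ⟨K, rfl⟩ : ∃ K, N = K + 1 := ⟨N - 1, by omega⟩
    -- chain formulas are seen from y
    have hchain : ∀ D, box (K + 1) D ∈ y → ∀ l i, dia (K + 1) (chainF K χ D l i) ∈ y := by
      intro D hD l
      induction l with
      | zero =>
        intro i
        rw [mem_dia hy]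
        intro h
        apply hNb
        refine box_mono hy (K + 1) ?_ h
        rw [der_imp_iff]
        intro u hu
        simp only [chainF]
        rw [mem_neg hu]
        intro h; exact absurd (mem_top hu) h
      | succ l ih =>
        intro i
        have h3 := ih (i + 1)
        rw [mem_dia hy] at h3 ⊢
        have h4 : box K (neg (chainF K χ D l (i + 1))) ∉ y := fun h => h3 (box_le hy (by omega) h)
        have h5 : box (K + 1) (neg (box K (neg (chainF K χ D l (i + 1))))) ∈ y :=
          box_nbox hy (Nat.lt_succ_self K) h4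
        intro h6
        apply hχ i
        have h7 : Der ∅ (imp (neg (chainF K χ D (l + 1) i)) (imp D
            (imp (neg (box K (neg (chainF K χ D l (i + 1))))) (χ i)))) := by
          rw [der_imp_iff]
          intro u hu
          simp only [chainF]
          rw [mem_neg hu, mem_and hu, mem_and hu, mem_neg hu, mem_dia hu, mem_imp hu, mem_imp hu,
            mem_neg hu]
          tauto
        exact box_mp hy _ (box_mp hy _ (box_mono hy _ h7 h6) hD) h5
    -- the states
    let Q : ℕ → Set (Fm β) → Prop := fun i v => IsMCS v ∧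
      ∀ D, box (K + 1) D ∈ y → ∀ l, (chainF K χ D l i).subst σ ∈ v
    have hdir : ∀ i, ∀ d ∈ {d : Fm β | ∃ D, box (K + 1) D ∈ y ∧ ∃ l, d = (chainF K χ D l i).subst σ},
        ∀ d' ∈ {d : Fm β | ∃ D, box (K + 1) D ∈ y ∧ ∃ l, d = (chainF K χ D l i).subst σ},
        ∃ e ∈ {d : Fm β | ∃ D, box (K + 1) D ∈ y ∧ ∃ l, d = (chainF K χ D l i).subst σ},
          Der ∅ (imp e d) ∧ Der ∅ (imp e d') := by
      rintro i d ⟨D, hD, l, rfl⟩ d' ⟨D', hD', l', rfl⟩
      refine ⟨_, ⟨Fm.and D D', hDand _ _ hD hD', max l l', rfl⟩, ?_, ?_⟩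
      · exact (chainF_mono K χ D (Fm.and D D') (hand1 _ _) l (max l l') i
          (le_max_left _ _)).subst' σ
      · exact (chainF_mono K χ D' (Fm.and D D') (hand2 _ _) l' (max l l') i
          (le_max_right _ _)).subst' σ
    obtain ⟨v0, hv0⟩ : ∃ v0, Q 0 v0 := by
      obtain ⟨v, hv, -, h2⟩ := lindenbaum_directed (isTh_thm (α := β))
        {d | ∃ D, box (K + 1) D ∈ y ∧ ∃ l, d = (chainF K χ D l 0).subst σ}
        ⟨_, top, hDtop, 0, rfl⟩ (hdir 0)
        (by
          rintro d ⟨D, hD, l, rfl⟩ h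
          exact exact_consistent' hT hy (K + 1) (hchain D hD l 0) h)
      exact ⟨v, hv, fun D hD l => h2 ⟨D, hD, l, rfl⟩⟩
    obtain ⟨v, hQ, hR⟩ := dep_choice Q (fun v v' => ∀ b, box K b ∈ v → b ∈ v') v0 hv0 (by
      rintro i v ⟨hv, hvi⟩
      obtain ⟨v', hv', h1, h2⟩ := lindenbaum_directed (isTh_box hv K)
        {d | ∃ D, box (K + 1) D ∈ y ∧ ∃ l, d = (chainF K χ D l (i + 1)).subst σ}
        ⟨_, top, hDtop, 0, rfl⟩ (hdir (i + 1))
        (by
          rintro d ⟨D, hD, l, rfl⟩ h
          have h3 := hvi D hD (l + 1)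
          simp only [chainF, subst_and, subst_dia] at h3
          rw [mem_and hv, mem_dia hv] at h3
          exact h3.2 h)
      exact ⟨v', ⟨hv', fun D hD l => h2 ⟨D, hD, l, rfl⟩⟩, fun b hb => h1 hb⟩)
    have hvm : ∀ i, IsMCS (v i) := fun i => (hQ i).1
    have hvD : ∀ i D, box (K + 1) D ∈ y → D.subst σ ∈ v i := by
      intro i D hD
      have h3 := (hQ i).2 D hD 1
      simp only [chainF, subst_and] at h3
      rw [mem_and (hvm i), mem_and (hvm i)] at h3
      exact h3.1.1
    have hvχ : ∀ i, (χ i).subst σ ∉ v i := by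
      intro i
      have h3 := (hQ i).2 top hDtop 1
      simp only [chainF, subst_and, subst_neg] at h3
      rw [mem_and (hvm i), mem_and (hvm i), mem_neg (hvm i)] at h3
      exact h3.1.2
    -- monotonicity of lower theories along the chain
    have hmono : ∀ m, m ≤ K → ∀ x i j, i ≤ j → box m x ∈ v i → box m x ∈ v j := by
      intro m hm x i j hij h
      induction j, hij using Nat.le_induction with
      | base => exact h
      | succ j _ ih => exact hR j _ (box_box (hvm j) hm ih)
    let ι := {𝒱 : Ultrafilter ℕ // (𝒱 : Filter ℕ) ≤ Filter.cofinite}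
    have hev : ∀ (𝒱 : ι) (i : ℕ) (P : ℕ → Prop), (∀ j, i ≤ j → P j) →
        ∀ᶠ j in (𝒱.1 : Filter ℕ), P j := by
      intro 𝒱 i P hP
      have : ∀ᶠ j in Filter.cofinite, P j := by
        rw [Nat.cofinite_eq_atTop]
        exact Filter.eventually_atTop.2 ⟨i, hP⟩
      exact this.filter_mono 𝒱.2
    have hex' : ∀ (𝒱 : ι) (P : ℕ → Prop), (∀ᶠ j in (𝒱.1 : Filter ℕ), P j) → ∃ j, P j :=
      fun 𝒱 P h => h.exists
    refine ep_of_family (ι := ι) hφ (K + 1) M
      (fun 𝒱 => {a : Fm β | ∀ᶠ i in (𝒱.1 : Filter ℕ), a ∈ v i})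
      (fun 𝒱 => IsMCS.limit 𝒱.1 v hvm) ?_ ?_ hM ?_
    · intro m hm 𝒱 𝒲 x h
      obtain ⟨i, hi⟩ := hex' 𝒱 _ h
      exact hev 𝒲 i _ (fun j hj => hmono m (by omega) x i j hj hi)
    · intro m hm 𝒱 𝒲 x h
      obtain ⟨i, hi⟩ := hex' 𝒱 _ h
      refine hev 𝒲 (i + 1) _ (fun j hj => ?_)
      obtain ⟨j', rfl⟩ : ∃ j', j = j' + 1 := ⟨j - 1, by omega⟩
      exact hR j' x (box_le (hvm j') (by omega) (hmono m (by omega) x i j' (by omega) hi))
    · intro m hm ψ
      obtain ⟨𝒱0⟩ : Nonempty ι := ⟨⟨Filter.hyperfilter ℕ, Filter.hyperfilter_le_cofinite⟩⟩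
      rcases lt_trichotomy m (K + 1) with hlt | heq | hgt
      · constructor
        · rintro ⟨h3, -⟩
          by_contra h4
          obtain ⟨i, hi⟩ := hex' 𝒱0 _ (h3 hlt 𝒱0)
          have h5 := hvD i _ (box_nbox hy hlt h4)
          rw [subst_neg, mem_neg (hvm i)] at h5
          exact h5 hi
        · intro h3
          refine ⟨fun _ 𝒱 => ?_, fun h => absurd h (ne_of_lt hlt)⟩
          exact hev 𝒱 0 _ (fun j _ => hvD j _ (box_box hy hlt.le h3))
      · subst heq
        constructor
        · rintro ⟨-, h3⟩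
          by_contra h4
          obtain ⟨j, hj⟩ := hg ⟨ψ, h4⟩
          -- the set of indices with χ i = ψ
          have hinf : {i : ℕ | χ i = ψ}.Infinite := by
            refine Set.infinite_of_injective_forall_mem (f := fun l => Nat.pair j l) ?_ ?_
            · intro l l' h
              exact (Nat.pair_eq_pair.1 h).2
            · intro l
              simp only [Set.mem_ofPred_eq, hχdef, Nat.unpair_pair, hj]
          have hne : (Filter.cofinite ⊓ Filter.principal {i : ℕ | χ i = ψ}).NeBot :=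
            Filter.cofinite_inf_principal_neBot_iff.2 hinf
          let 𝒲 : ι := ⟨Ultrafilter.of (Filter.cofinite ⊓ Filter.principal {i : ℕ | χ i = ψ}),
            le_trans (Ultrafilter.of_le _) inf_le_left⟩
          have h6 : ∀ᶠ i in (𝒲.1 : Filter ℕ), χ i = ψ := by
            have : (𝒲.1 : Filter ℕ) ≤ Filter.principal {i : ℕ | χ i = ψ} :=
              le_trans (Ultrafilter.of_le _) inf_le_right
            exact this (Filter.mem_principal_self _)
          have h7 := (h3 rfl 𝒲).1
          obtain ⟨i, hi1, hi2⟩ := (h6.and h7).exists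
          have h8 := hvχ i
          rw [hi1] at h8
          exact h8 hi2
        · intro h3
          refine ⟨fun h => absurd h (lt_irrefl _), fun _ 𝒱 => ⟨?_, ?_⟩⟩
          · exact hev 𝒱 0 _ (fun j _ => hvD j _ h3)
          · exact hev 𝒱 0 _ (fun j _ => hvD j _ (box_four hy _ h3))
      · refine iff_of_true ⟨fun h => absurd h (by omega), fun h => absurd h (by omega)⟩ ?_
        refine box_mono hy m ?_ (hNmax m hgt hm)
        rw [der_imp_iff]
        intro u hu h
        exact absurd h hu.nbot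

end EP

theorem ev_and (a : α → Prop) (e : ℕ → Fm α → Prop) (x y : Fm α) :
    ev a e (Fm.and x y) ↔ ev a e x ∧ ev a e y := by
  simp only [Fm.and, neg, ev]
  tauto

theorem der_and {x y : Fm β} (hx : Der ∅ x) (hy : Der ∅ y) : Der ∅ (Fm.and x y) := by
  rw [der_iff]
  intro u hu
  rw [mem_and hu]
  exact ⟨hu.thm _ hx, hu.thm _ hy⟩

theorem der_top : Der ∅ (top : Fm β) := by
  rw [der_iff]
  intro u hu
  exact mem_top hu

def bigand : List (Fm α) → Fm α
  | [] => top
  | x :: l => Fm.and x (bigand l)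

theorem ev_bigand (a : α → Prop) (e : ℕ → Fm α → Prop) (l : List (Fm α))
    (h : ev a e (bigand l)) : ∀ x ∈ l, ev a e x := by
  induction l with
  | nil => intro x hx; simp at hx
  | cons z l ih =>
    intro x hx
    rw [bigand, ev_and] at h
    rcases List.mem_cons.1 hx with h1 | h1
    · rw [h1]; exact h.1
    · exact ih h.2 x h1

theorem der_bigand (σ : α → Fm β) (l : List (Fm α)) (h : ∀ x ∈ l, Der ∅ (x.subst σ)) :
    Der ∅ ((bigand l).subst σ) := by
  induction l with
  | nil => exact der_top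
  | cons z l ih =>
    rw [bigand, subst_and]
    exact der_and (h z (by simp)) (ih fun x hx => h x (List.mem_cons_of_mem _ hx))

/-- one valuation for all unified formulas -/
theorem ext_all [Finite α] {σ : α → Fm β} {y : Set (Fm α)} (hy : IsMCS y)
    (hT : ∀ ψ : Fm α, Der ∅ (ψ.subst σ) → box 0 ψ ∈ y) :
    ∃ a : α → Prop, ∀ ψ : Fm α, Der ∅ (ψ.subst σ) → ev a (fun m χ => box m χ ∈ y) ψ := by
  classical
  by_contra hcon
  push Not at hcon
  choose ψ hψ1 hψ2 using hcon
  have : Fintype (α → Prop) := Fintype.ofFinite _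
  obtain ⟨a, ha⟩ := ext_prop (φ := bigand ((Finset.univ : Finset (α → Prop)).toList.map ψ))
    (σ := σ) (der_bigand σ _ (by
      intro x hx
      obtain ⟨a, -, rfl⟩ := List.mem_map.1 hx
      exact hψ1 a)) hy hT
  exact hψ2 a (ev_bigand a _ _ ha (ψ a) (List.mem_map.2 ⟨a, by simp, rfl⟩))

theorem isMCS_ev {y : Set (Fm α)} (a : α → Prop) (e : ℕ → Fm α → Prop)
    (h : ∀ x, Der ∅ x → ev a e x) : IsMCS {x | ev a e x} :=
  { thm := h
    mp := fun _ _ h1 h2 => h1 h2
    nbot := id
    compl := fun x => Classical.em (ev a e x) }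

theorem isMCS_chg {y : Set (Fm α)} (hy : IsMCS y) (a : α → Prop) : IsMCS (chg a y) := by
  refine isMCS_ev (y := y) a _ ?_
  intro x hx
  induction hx with
  | hyp h => exact absurd h (Set.notMem_empty _)
  | ax1 a b => intro h _; exact h
  | ax2 a b c => intro h h' h''; exact h h'' (h' h'')
  | ax3 a =>
    intro h
    by_contra h'
    exact h h'
  | axK k x z => intro h1 h2; exact box_mp hy k h1 h2
  | axL k x => intro h1; exact box_lob hy k h1
  | axM m k x hmk => intro h1; exact box_le hy hmk h1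
  | axN m k x hmk => intro h1; exact box_nbox hy hmk h1
  | mp _ _ ih1 ih2 => exact ih2 ih1
  | nec k hx _ => exact box_nec hy k hx

theorem kroot : Pool.Agent.W897.GA.S_Kroot := by
  intro n β σ ι K u hu h1 h2
  have hum : ∀ i, IsMCS (u i) := fun i => (hu i).1
  set y : Set (Fm (Fin n)) := root (fun _ => True) K u with hydef
  have hy : IsMCS y :=
    isMCS_ev (y := y) _ _ (fun x hx => root_lemma K u hum h1 h2 _ x hx)
  have hyb : ∀ m x, box m x ∈ y ↔ rootBox K u m x := fun m x => Iff.rfl
  have hT : ∀ ψ : Fm (Fin n), Der ∅ (ψ.subst σ) → box 0 ψ ∈ y := by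
    intro ψ hψ
    rw [hyb]
    have hb : ∀ m i, box m ψ ∈ u i := fun m i => (hu i).2 (box m ψ) (Der.nec m hψ)
    exact ⟨fun _ i => hb 0 i, fun _ i => ⟨(hu i).2 ψ hψ, hb K i⟩⟩
  obtain ⟨a, ha⟩ := ext_all hy hT
  refine ⟨chg a y, ⟨isMCS_chg hy a, fun θ hθ => ha θ hθ⟩, fun m x => ?_⟩
  exact Iff.rfl

end Pool.Agent.W352.GLPA
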