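import Pool.Agent.W897.GA.Defs

/-! The extension property implies projectivity (copied from exact_projective of H557R3/GLPFix). -/

set_option autoImplicit false

namespace Pool.Agent.W352.GLPA

open Pool.Agent.H557R3.GLP Pool.Agent.H557R3.GLP.Fm Pool.Agent.W897.GA

theorem proj : Pool.Agent.W897.GA.S_proj := by
  intro n φ hep
  classical
  set L : List (Fin n → Bool) := (Finset.univ : Finset (Fin n → Bool)).toList with hL
  have hLmem : ∀ a : Fin n → Bool, a ∈ L := fun a => by simp [hL]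
  set Φ : Fm (Fin n) := Fm.and φ (Fm.box 0 φ) with hΦ
  let B : Fin n → Fm (Fin n ⊕ (ℕ × Fm (Fin n))) := fun i =>
    Fm.and (Fm.imp (Φ.subst fun i => var (Sum.inl i)) (var (Sum.inl i)))
      (Fm.imp (neg (Φ.subst fun i => var (Sum.inl i)))
        (pick (fun l χ => var (Sum.inr (l, χ))) φ i L))
  obtain ⟨τ, hτ⟩ := system_lemma (γ := Fin n) (fun s : ℕ × Fm (Fin n) => s.1) (obox φ)
    (fun s _ => solvable s.1) (fun s => s.2.subst B)
  let T : Fin n → Fm (Fin n) := fun i => Fm.and (Fm.imp Φ (var i))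
    (Fm.imp (neg Φ) (pick (fun l χ => τ (l, χ)) φ i L))
  have hT : ∀ i, (B i).subst (Sum.elim var τ) = T i := by
    intro i
    simp only [B, T, subst_and, subst_imp, subst_neg, pick_subst, subst_subst, subst_var,
      Sum.elim_inl, Sum.elim_inr]
    rw [subst_id]
  have hτ' : ∀ s ∈ obox φ, Eqv (τ s) (Fm.box s.1 (s.2.subst T)) := by
    intro s hs
    have h1 := hτ s hs
    rw [subst_subst] at h1
    have h2 : (fun i => (B i).subst (Sum.elim var τ)) = T := funext hT
    rwa [h2] at h1
  -- behaviour of T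
  have hT1 : ∀ x, IsMCS x → Φ ∈ x → ∀ i, (T i ∈ x ↔ (var i : Fm (Fin n)) ∈ x) := by
    intro x hx h i
    simp only [T]
    rw [mem_and hx, mem_imp hx, mem_imp hx, mem_neg hx]
    tauto
  have hT2 : ∀ x, IsMCS x → Φ ∉ x → ∀ i,
      (T i ∈ x ↔ pick (fun l χ => τ (l, χ)) φ i L ∈ x) := by
    intro x hx h i
    simp only [T]
    rw [mem_and hx, mem_imp hx, mem_imp hx, mem_neg hx]
    tauto
  -- formulas do not change where Φ holds
  have hT3 : ∀ ψ : Fm (Fin n), ∀ x, IsMCS x → Φ ∈ x → (ψ.subst T ∈ x ↔ ψ ∈ x) := by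
    intro ψ
    induction ψ with
    | var i => intro x hx h; exact hT1 x hx h i
    | bot => intro x _ _; exact Iff.rfl
    | imp a b iha ihb =>
      intro x hx h
      rw [subst_imp, mem_imp hx, mem_imp hx, iha x hx h, ihb x hx h]
    | box l a ih =>
      intro x hx h
      rw [subst_box, mem_box hx, mem_box hx]
      refine forall_congr' fun v => forall_congr' fun hv => forall_congr' fun hR => ih v hv ?_
      rw [hΦ, mem_and hx] at h
      rw [hΦ, mem_and hv]
      exact ⟨hR _ (box_le hx (Nat.zero_le l) h.2),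
        hR _ (box_le hx (Nat.zero_le l) (box_four hx 0 h.2))⟩
  refine ⟨T, ?_, ?_⟩
  · apply lob_rule 0
    rw [der_imp_iff]
    intro x hx h0
    by_cases hΦx : Φ ∈ x
    · rw [hT3 φ x hx hΦx]
      rw [hΦ, mem_and hx] at hΦx
      exact hΦx.1
    · -- the extension property at x
      have hy : IsMCS {a : Fm (Fin n) | a.subst T ∈ x} := hx.comap T
      obtain ⟨a, ha⟩ := hep _ hy h0
      replace ha : ev a (fun l χ => Fm.box l χ ∈ {a : Fm (Fin n) | a.subst T ∈ x}) φ := ha
      have ha' : ∃ b ∈ L, topf b (fun l χ => τ (l, χ)) φ ∈ x := by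
        refine ⟨fun i => decide (a i), hLmem _, ?_⟩
        rw [topf_mem hx _ _ (fun l χ => Fm.box l (χ.subst T) ∈ x)]
        · simpa using ha
        · intro s hs
          exact hτ' s hs x hx
      obtain ⟨b, -, hb, hbi⟩ := pick_mem hx _ _ L ha'
      have hb' := (topf_mem hx b (fun l χ => τ (l, χ)) (fun l χ => Fm.box l (χ.subst T) ∈ x) φ
        (fun s hs => hτ' s hs x hx)).1 hb
      rw [ev_of_subst hx T (fun i => b i = true)]
      · exact hb'
      · intro i
        rw [hT2 x hx hΦx i, hbi i]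
  · intro ψ x hx h1 h2
    exact hT3 ψ x hx ((mem_and hx _ _).2 ⟨h1, h2⟩)

end Pool.Agent.W352.GLPA
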