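import Pool.Agent.W897.GA.Defs

/-! A maximal element for the accessibility relation. -/

set_option autoImplicit false

namespace Pool.Agent.W352.GLPA

open Pool.Agent.H557R3.GLP Pool.Agent.H557R3.GLP.Fm Pool.Agent.W897.GA

theorem Acc.trans' {α : Type} {k : ℕ} {a b c : Set (Fm α)} (ha : IsMCS a) (h1 : Acc k a b)
    (h2 : Acc k b c) : Acc k a c := fun θ hθ => h2 θ (h1 _ (box_four ha k hθ))

theorem zorn : Pool.Agent.W897.GA.S_Zorn := by
  classical
  intro α k P hP hne hlim
  let S : Type := {v : Set (Fm α) // P v}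
  let r : S → S → Prop := fun u w => u = w ∨ Acc k w.1 u.1
  have htr : ∀ {a b c : S}, r a b → r b c → r a c := by
    intro a b c h1 h2
    rcases h1 with rfl | h1
    · exact h2
    · rcases h2 with rfl | h2
      · exact Or.inr h1
      · exact Or.inr (Acc.trans' (hP _ c.2) h2 h1)
  obtain ⟨m, hm⟩ := exists_maximal_of_chains_bounded (r := r) (by
    intro c hc
    by_cases hce : c.Nonempty
    swap
    · obtain ⟨v, hv⟩ := hne
      refine ⟨⟨v, hv⟩, fun a ha => absurd ⟨a, ha⟩ hce⟩
    by_cases hmax : ∃ m ∈ c, ∀ a ∈ c, r a m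
    · obtain ⟨m, -, hm⟩ := hmax
      exact ⟨m, hm⟩
    push Not at hmax
    have hup : ∀ b : c, ∃ a : c, Acc k a.1.1 b.1.1 := by
      intro b
      obtain ⟨a, hac, ha⟩ := hmax b.1 b.2
      have hab : a ≠ b.1 := by
        rintro rfl
        exact ha (Or.inl rfl)
      rcases hc hac b.2 hab with h | h
      · exact absurd h ha
      · rcases h with h | h
        · exact absurd h.symm hab
        · exact ⟨⟨a, hac⟩, h⟩
    have : Nonempty c := ⟨⟨_, hce.some_mem⟩⟩
    let T : c → Set c := fun b => {a | Acc k a.1.1 b.1.1}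
    have hdir : Directed (· ≥ ·) (fun b => Filter.principal (T b)) := by
      intro b b'
      have hcmp : r b.1 b'.1 ∨ r b'.1 b.1 := by
        by_cases h : b.1 = b'.1
        · exact Or.inl (Or.inl h)
        · exact hc b.2 b'.2 h
      have key : ∀ b b' : c, r b.1 b'.1 → T b' ⊆ T b := by
        intro b b' h a ha
        rcases h with h | h
        · have : b = b' := Subtype.ext h
          rw [this]; exact ha
        · exact Acc.trans' (hP _ a.1.2) ha h
      rcases hcmp with h | h
      · exact ⟨b', Filter.principal_mono.2 (key b b' h), le_rfl⟩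
      · exact ⟨b, le_rfl, Filter.principal_mono.2 (key b' b h)⟩
    have hnb : (⨅ b : c, Filter.principal (T b)).NeBot := by
      apply Filter.iInf_neBot_of_directed' hdir
      intro b
      obtain ⟨a, ha⟩ := hup b
      exact Filter.principal_neBot_iff.2 ⟨a, ha⟩
    let 𝒱 : Ultrafilter c := Ultrafilter.of (⨅ b : c, Filter.principal (T b))
    have h𝒱 : ∀ b : c, ∀ᶠ a in (𝒱 : Filter c), a ∈ T b := by
      intro b
      have h1 : (𝒱 : Filter c) ≤ Filter.principal (T b) :=
        le_trans (Ultrafilter.of_le _) (iInf_le _ b)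
      exact h1 (Filter.mem_principal_self _)
    refine ⟨⟨lim 𝒱 (fun a : c => a.1.1), hlim _ 𝒱 _ (fun a => a.1.2)⟩, fun a ha => Or.inr ?_⟩
    intro θ hθ
    have h1 : ∀ᶠ b : c in (𝒱 : Filter c), box k θ ∈ b.1.1 := hθ
    obtain ⟨b, hb1, hb2⟩ := (h1.and (h𝒱 ⟨a, ha⟩)).exists
    exact hb2 θ hb1) htr
  refine ⟨m.1, m.2, fun v hv hacc => ?_⟩
  rcases hm ⟨v, hv⟩ (Or.inr hacc) with h | h
  · exact Or.inl (congrArg Subtype.val h)
  · exact Or.inr h

end Pool.Agent.W352.GLPA
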